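import Mathlib

/-!
# The last step: mean and variance from the Laplace transform

`L N` random variables, `l N → ∞`.  If for every `a > 0`, with `p = a / √(l N)`,
`E exp (- p L) ≤ exp (p (p + 1) / 2 * l + ε)` and `E exp (p L) ≤ exp (- p (1 - p) / 2 * l + ε)` eventually, and for one
`a > 0` also `exp (p (p + 1) / 2 * l - ε) ≤ E exp (- p L)` eventually, then `E L / l → - 1 / 2` and the variance of `L` is
between constant multiples of `l`.
-/

set_option autoImplicit false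

open MeasureTheory ProbabilityTheory Filter Topology

namespace Pool.Agent.Polymer

/-- `x² ≤ e^x + e^(-x)` -/
lemma sq_le_exp (x : ℝ) : x ^ 2 ≤ Real.exp x + Real.exp (-x) := by
  have h : ∀ y : ℝ, 0 ≤ y → y ^ 2 ≤ Real.exp y + Real.exp (-y) := by
    intro y hy
    have h3 : Real.cosh y = (Real.exp y + Real.exp (-y)) / 2 := Real.cosh_eq y
    have h7 : Real.cosh y = 1 + 2 * Real.sinh (y / 2) ^ 2 := by
      have := Real.cosh_two_mul (y / 2)
      rw [show 2 * (y / 2) = y by ring] at this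
      have h8 := Real.cosh_sq (y / 2)
      linarith
    have h9 : y / 2 ≤ Real.sinh (y / 2) := Real.self_le_sinh_iff.2 (by linarith)
    have h10 : (y / 2) ^ 2 ≤ Real.sinh (y / 2) ^ 2 := pow_le_pow_left₀ (by linarith) h9 2
    nlinarith
  rcases le_total 0 x with hx | hx
  · exact h x hx
  · have := h (-x) (by linarith)
    rw [neg_neg, neg_sq] at this
    linarith

/-- `e^y - 1 - y ≤ y² e^|y|` -/
lemma exp_sub_le (y : ℝ) : Real.exp y - 1 - y ≤ y ^ 2 * Real.exp |y| := by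
  have h := Complex.norm_exp_sub_sum_le_norm_mul_exp (y : ℂ) 2
  have e : ∑ m ∈ Finset.range 2, (y : ℂ) ^ m / (m.factorial : ℂ) = ((1 + y : ℝ) : ℂ) := by
    simp [Finset.sum_range_succ]
  rw [e, ← Complex.ofReal_exp, ← Complex.ofReal_sub, Complex.norm_real, Complex.norm_real, Real.norm_eq_abs,
    Real.norm_eq_abs, sq_abs] at h
  have h1 := (le_abs_self _).trans h
  linarith

lemma exp_abs_le (x : ℝ) : Real.exp |x| ≤ Real.exp x + Real.exp (-x) := by
  rcases abs_cases x with ⟨h, _⟩ | ⟨h, _⟩ <;> rw [h]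
  · linarith [Real.exp_pos (-x)]
  · linarith [Real.exp_pos x]

section one

variable {Ω : Type*} [MeasurableSpace Ω] {P : Measure Ω} {X : Ω → ℝ}

/-- the exponential moments of order `a` and `-a` -/
structure ExpMom (P : Measure Ω) (X : Ω → ℝ) (a C : ℝ) : Prop where
  ip : Integrable (fun ω => Real.exp (a * X ω)) P
  im : Integrable (fun ω => Real.exp (-(a * X ω))) P
  lp : ∫ ω, Real.exp (a * X ω) ∂P ≤ C
  lm : ∫ ω, Real.exp (-(a * X ω)) ∂P ≤ C

lemma ExpMom.abs {a C : ℝ} (hX : AEStronglyMeasurable X P) (h : ExpMom P X a C) :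
    Integrable (fun ω => Real.exp |a * X ω|) P ∧ ∫ ω, Real.exp |a * X ω| ∂P ≤ 2 * C := by
  have hi : Integrable (fun ω => Real.exp |a * X ω|) P := by
    refine (h.ip.add h.im).mono' ?_ (Eventually.of_forall fun ω => ?_)
    · exact Real.continuous_exp.comp_aestronglyMeasurable ((hX.const_mul a).norm)
    · rw [Real.norm_eq_abs, abs_of_pos (Real.exp_pos _)]
      exact exp_abs_le _
  refine ⟨hi, ?_⟩
  have h1 : ∫ ω, Real.exp |a * X ω| ∂P ≤ ∫ ω, (Real.exp (a * X ω) + Real.exp (-(a * X ω))) ∂P :=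
    integral_mono hi (h.ip.add h.im) fun ω => exp_abs_le _
  rw [integral_add h.ip h.im] at h1
  linarith [h.lp, h.lm]

lemma ExpMom.sq {C : ℝ} (hX : AEStronglyMeasurable X P) (h : ExpMom P X 1 C) :
    Integrable (fun ω => X ω ^ 2) P ∧ ∫ ω, X ω ^ 2 ∂P ≤ 2 * C := by
  have h0 : ∀ ω, X ω ^ 2 ≤ Real.exp (1 * X ω) + Real.exp (-(1 * X ω)) := fun ω => by
    rw [one_mul]; exact sq_le_exp _
  have hi : Integrable (fun ω => X ω ^ 2) P := by
    refine (h.ip.add h.im).mono' (hX.pow 2) (Eventually.of_forall fun ω => ?_)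
    rw [Real.norm_eq_abs, abs_of_nonneg (sq_nonneg _)]
    exact h0 ω
  refine ⟨hi, ?_⟩
  have h1 : ∫ ω, X ω ^ 2 ∂P ≤ ∫ ω, (Real.exp (1 * X ω) + Real.exp (-(1 * X ω))) ∂P :=
    integral_mono hi (h.ip.add h.im) h0
  rw [integral_add h.ip h.im] at h1
  linarith [h.lp, h.lm]

lemma ExpMom.memLp {C : ℝ} (hX : AEStronglyMeasurable X P) (h : ExpMom P X 1 C) : MemLp X 2 P :=
  (memLp_two_iff_integrable_sq hX).2 (h.sq hX).1

variable [IsProbabilityMeasure P]

lemma ExpMom.integrable {C : ℝ} (hX : AEStronglyMeasurable X P) (h : ExpMom P X 1 C) : Integrable X P :=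
  (h.memLp hX).integrable (by norm_num)

/-- the mean is small -/
lemma ExpMom.mean {a C : ℝ} (ha : 0 < a) (hX : Integrable X P) (h : ExpMom P X a C) :
    |∫ ω, X ω ∂P| ≤ (C - 1) / a := by
  have h1 : ∀ s : ℝ, Integrable (fun ω => Real.exp (s * X ω)) P →
      1 + s * ∫ ω, X ω ∂P ≤ ∫ ω, Real.exp (s * X ω) ∂P := by
    intro s hs
    have h2 : ∫ ω, (1 + s * X ω) ∂P ≤ ∫ ω, Real.exp (s * X ω) ∂P := by
      refine integral_mono ((integrable_const _).add (hX.const_mul s)) hs fun ω => ?_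
      have := Real.add_one_le_exp (s * X ω)
      show 1 + s * X ω ≤ _
      linarith
    rw [integral_add (integrable_const _) (hX.const_mul s), integral_const_mul, integral_const] at h2
    simpa using h2
  have h2 := h1 a h.ip
  have h3 := h1 (-a) (by simpa only [neg_mul] using h.im)
  simp only [neg_mul] at h3
  have h4 := h.lp
  have h5 := h.lm
  have h6 : a * ∫ ω, X ω ∂P ≤ C - 1 := by linarith
  have h7 : -(C - 1) ≤ a * ∫ ω, X ω ∂P := by linarith
  rw [abs_le, le_div_iff₀ ha, ← neg_div, div_le_iff₀ ha]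
  constructor <;> linarith

/-- the second moment is not small -/
lemma ExpMom.lower {a C u δ t : ℝ} (ha : 0 < a) (ht : 0 < t) (hX : AEStronglyMeasurable X P)
    (h1 : ExpMom P X 1 C) (h : ExpMom P X a C) (hb : ExpMom P X (1 + 2 * a) C)
    (hu : u ≤ ∫ ω, Real.exp (-(a * X ω)) ∂P) (hδ : |∫ ω, X ω ∂P| ≤ δ) :
    u - 1 - a * δ ≤ a ^ 2 * (t / 2 * ∫ ω, X ω ^ 2 ∂P + 2 * C / t) := by
  obtain ⟨i1, -⟩ := h1.sq hX
  obtain ⟨i2, l2⟩ := hb.abs hX
  have i0 := h1.integrable hX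
  have e1 : ∀ x : ℝ, Real.exp (-(a * x)) - 1 + a * x ≤ a ^ 2 * (t / 2 * x ^ 2 + 1 / t * Real.exp |(1 + 2 * a) * x|) := by
    intro x
    have h2 := exp_sub_le (-(a * x))
    rw [abs_neg, neg_sq, mul_pow] at h2
    have h3 : x ^ 2 * Real.exp |a * x| ≤ t / 2 * x ^ 2 + 1 / t * Real.exp |(1 + 2 * a) * x| := by
      have h4 : x ^ 2 * Real.exp |a * x| ^ 2 ≤ 2 * Real.exp |(1 + 2 * a) * x| := by
        have h5 : x ^ 2 ≤ 2 * Real.exp |x| := by
          have h6 := sq_le_exp x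
          have h7 : Real.exp x ≤ Real.exp |x| := Real.exp_le_exp.2 (le_abs_self x)
          have h8 : Real.exp (-x) ≤ Real.exp |x| := Real.exp_le_exp.2 (neg_le_abs x)
          linarith
        have h6 : Real.exp |(1 + 2 * a) * x| = Real.exp |x| * Real.exp |a * x| ^ 2 := by
          rw [← Real.exp_nat_mul, ← Real.exp_add, abs_mul, abs_mul, abs_of_pos ha,
            abs_of_pos (show (0 : ℝ) < 1 + 2 * a by linarith)]
          congr 1
          push_cast
          ring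
        rw [h6]
        have h7 : 0 ≤ Real.exp |a * x| ^ 2 := sq_nonneg _
        nlinarith [mul_le_mul_of_nonneg_right h5 h7]
      have h5 : x ^ 2 * Real.exp |a * x| ≤ t / 2 * x ^ 2 + 1 / (2 * t) * (x ^ 2 * Real.exp |a * x| ^ 2) := by
        have h6 : 0 ≤ (t - Real.exp |a * x|) ^ 2 * x ^ 2 := by positivity
        have h7 : t / 2 * x ^ 2 + 1 / (2 * t) * (x ^ 2 * Real.exp |a * x| ^ 2) - x ^ 2 * Real.exp |a * x| =
            1 / (2 * t) * ((t - Real.exp |a * x|) ^ 2 * x ^ 2) := by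
          field_simp
          ring
        have h8 : 0 ≤ 1 / (2 * t) * ((t - Real.exp |a * x|) ^ 2 * x ^ 2) := by positivity
        linarith
      have h6 : 1 / (2 * t) * (x ^ 2 * Real.exp |a * x| ^ 2) ≤ 1 / t * Real.exp |(1 + 2 * a) * x| := by
        have h7 : 0 < 1 / (2 * t) := by positivity
        calc 1 / (2 * t) * (x ^ 2 * Real.exp |a * x| ^ 2) ≤ 1 / (2 * t) * (2 * Real.exp |(1 + 2 * a) * x|) :=
              mul_le_mul_of_nonneg_left h4 h7.le
          _ = _ := by field_simp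
      linarith
    have h4 := mul_le_mul_of_nonneg_left h3 (sq_nonneg a)
    nlinarith
  have i3 : Integrable (fun ω => Real.exp (-(a * X ω)) - 1 + a * X ω) P :=
    (h.im.sub (integrable_const _)).add (i0.const_mul a)
  have i4 : Integrable (fun ω => a ^ 2 * (t / 2 * X ω ^ 2 + 1 / t * Real.exp |(1 + 2 * a) * X ω|)) P :=
    ((i1.const_mul _).add (i2.const_mul _)).const_mul _
  have e2 : ∫ ω, (Real.exp (-(a * X ω)) - 1 + a * X ω) ∂P ≤
      ∫ ω, (a ^ 2 * (t / 2 * X ω ^ 2 + 1 / t * Real.exp |(1 + 2 * a) * X ω|)) ∂P := integral_mono i3 i4 fun ω => e1 (X ω)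
  have i5 : Integrable (fun ω => Real.exp (-(a * X ω)) - 1) P := h.im.sub (integrable_const _)
  rw [integral_add i5 (i0.const_mul a), integral_sub h.im (integrable_const _),
    integral_const_mul, integral_const_mul, integral_add (i1.const_mul _) (i2.const_mul _), integral_const_mul,
    integral_const_mul] at e2
  simp only [integral_const, probReal_univ, smul_eq_mul, mul_one] at e2
  have e3 : -(a * δ) ≤ a * ∫ ω, X ω ∂P := by
    have := (abs_le.1 hδ).1
    nlinarith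
  have e4 : 1 / t * ∫ ω, Real.exp |(1 + 2 * a) * X ω| ∂P ≤ 2 * C / t := by
    rw [one_div, inv_mul_eq_div]
    exact div_le_div_of_nonneg_right l2 ht.le
  have e5 := mul_le_mul_of_nonneg_left (add_le_add_left e4 (t / 2 * ∫ ω, X ω ^ 2 ∂P)) (sq_nonneg a)
  linarith

end one

/-- **mean and variance of the normalised variables** -/
theorem norm_mean_var {Ω : Type*} [MeasurableSpace Ω] {P : Measure Ω} [IsProbabilityMeasure P] {X : ℕ → Ω → ℝ}
    (hX : ∀ᶠ N in atTop, AEStronglyMeasurable (X N) P)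
    (h : ∀ a : ℝ, 0 < a → ∀ ε : ℝ, 0 < ε → ∀ᶠ N in atTop, ExpMom P (X N) a (Real.exp (a ^ 2 / 2 + ε)))
    (hlow : ∃ a : ℝ, 0 < a ∧ ∀ ε : ℝ, 0 < ε → ∀ᶠ N in atTop,
      Real.exp (a ^ 2 / 2 - ε) ≤ ∫ ω, Real.exp (-(a * X N ω)) ∂P) :
    Tendsto (fun N => ∫ ω, X N ω ∂P) atTop (𝓝 0) ∧
      ∃ c C : ℝ, 0 < c ∧ 0 < C ∧ ∀ᶠ N in atTop, MemLp (X N) 2 P ∧ c ≤ variance (X N) P ∧ variance (X N) P ≤ C := by
  -- the mean
  have hmean : ∀ δ : ℝ, 0 < δ → ∀ᶠ N in atTop, |∫ ω, X N ω ∂P| ≤ δ := by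
    intro δ hδ
    -- `(exp (a² / 2 + a²) - 1) / a → 0`
    have h1 : Tendsto (fun a : ℝ => (Real.exp (a ^ 2 / 2 + a ^ 2) - 1) / a) (𝓝[>] 0) (𝓝 0) := by
      have hd : HasDerivAt (fun a : ℝ => Real.exp (a ^ 2 / 2 + a ^ 2)) 0 0 := by
        have h2 : HasDerivAt (fun a : ℝ => a ^ 2 / 2 + a ^ 2) (2 * (0 : ℝ) ^ (2 - 1) / 2 + 2 * (0 : ℝ) ^ (2 - 1)) 0 := by
          have := (hasDerivAt_pow 2 (0 : ℝ))
          exact (this.div_const 2).add this
        have h3 := h2.exp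
        simpa using h3
      have h2 := hd.tendsto_slope_zero_right
      simpa [div_eq_inv_mul] using h2
    obtain ⟨a, ha, ha0⟩ := ((h1.eventually (gt_mem_nhds hδ)).and self_mem_nhdsWithin).exists
    have ha0 : 0 < a := ha0
    filter_upwards [h a ha0 (a ^ 2) (by positivity), h 1 one_pos 1 one_pos, hX] with N h2 h3 h4
    exact (h2.mean ha0 (h3.integrable h4)).trans ha.le
  refine ⟨?_, ?_⟩
  · rw [Metric.tendsto_nhds]
    intro δ hδ
    filter_upwards [hmean (δ / 2) (by positivity)] with N hN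
    rw [Real.dist_eq, sub_zero]
    linarith
  · obtain ⟨a, ha, hlow⟩ := hlow
    set C : ℝ := Real.exp ((1 + 2 * a) ^ 2 / 2 + 1) with hC
    have hC0 : 0 < C := Real.exp_pos _
    -- the gap
    have hex : (1 : ℝ) < Real.exp (a ^ 2 / 4) := Real.one_lt_exp_iff.2 (by positivity)
    set κ : ℝ := (Real.exp (a ^ 2 / 4) - 1) / 4 with hκ
    have hκ0 : 0 < κ := by rw [hκ]; linarith
    set t : ℝ := 2 * C * a ^ 2 / κ with ht
    have ht0 : 0 < t := by positivity
    -- `c₀` is a lower bound of the second moment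
    set c₀ : ℝ := 4 * κ / (a ^ 2 * t) with hc0
    have hc00 : 0 < c₀ := by positivity
    refine ⟨c₀ / 2, 2 * Real.exp (1 ^ 2 / 2 + 1), by positivity, by positivity, ?_⟩
    filter_upwards [h a ha (1) one_pos, h 1 one_pos 1 one_pos, h (1 + 2 * a) (by positivity) 1 one_pos, hX,
      hlow (a ^ 2 / 4) (by positivity), hmean (κ / a) (by positivity), hmean (min 1 (c₀ / 2)) (by positivity)]
      with N h1 h2 h3 h4 h5 h6 h7
    have hmem := h2.memLp h4
    have hle1 : ∀ b : ℝ, 0 < b → b ≤ 1 + 2 * a → Real.exp (b ^ 2 / 2 + 1) ≤ C := by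
      intro b hb hb'
      apply Real.exp_le_exp.2
      nlinarith
    have h1' : ExpMom P (X N) a C := ⟨h1.ip, h1.im, h1.lp.trans (hle1 a ha (by linarith)), h1.lm.trans (hle1 a ha (by linarith))⟩
    have h2' : ExpMom P (X N) 1 C := ⟨h2.ip, h2.im, h2.lp.trans (hle1 1 one_pos (by linarith)),
      h2.lm.trans (hle1 1 one_pos (by linarith))⟩
    have hvar := variance_eq_sub hmem
    have hsq : ∫ ω, (X N ω) ^ 2 ∂P = (∫ ω, ((X N) ^ 2) ω ∂P) := rfl
    refine ⟨hmem, ?_, ?_⟩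
    · have key := ExpMom.lower (t := t) ha ht0 h4 h2' h1' h3 h5 h6
      have e1 : a * (κ / a) = κ := by field_simp
      have e2 : a ^ 2 / 2 - a ^ 2 / 4 = a ^ 2 / 4 := by ring
      have e3 : a ^ 2 * (2 * C / t) = κ := by
        rw [ht]; field_simp
      rw [e1, e2, mul_add, e3] at key
      have e4 : Real.exp (a ^ 2 / 4) - 1 = 4 * κ := by rw [hκ]; ring
      have e5 : 2 * κ ≤ a ^ 2 * (t / 2 * ∫ ω, X N ω ^ 2 ∂P) := by linarith
      have e6 : c₀ ≤ ∫ ω, X N ω ^ 2 ∂P := by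
        rw [hc0, div_le_iff₀ (by positivity)]
        nlinarith
      have h8 : (∫ ω, X N ω ∂P) ^ 2 ≤ c₀ / 2 := by
        have h9 := h7.trans (min_le_left _ _)
        have h10 := h7.trans (min_le_right _ _)
        rw [← sq_abs]
        have h11 := abs_nonneg (∫ ω, X N ω ∂P)
        nlinarith
      rw [hvar]
      show c₀ / 2 ≤ (∫ ω, X N ω ^ 2 ∂P) - (∫ ω, X N ω ∂P) ^ 2
      linarith
    · rw [hvar]
      show (∫ ω, X N ω ^ 2 ∂P) - (∫ ω, X N ω ∂P) ^ 2 ≤ _
      have := (h2.sq h4).2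
      nlinarith [sq_nonneg (∫ ω, X N ω ∂P)]

/-- **the last step.**  `l N → ∞`, `p = a / √(l N)`. -/
theorem mean_var_of_laplace {Ω : Type*} [MeasurableSpace Ω] {P : Measure Ω} [IsProbabilityMeasure P]
    {L : ℕ → Ω → ℝ} {l : ℕ → ℝ} (hl : Tendsto l atTop atTop) (hL : ∀ᶠ N in atTop, AEStronglyMeasurable (L N) P)
    (hm : ∀ a : ℝ, 0 < a → ∀ ε : ℝ, 0 < ε → ∀ᶠ N in atTop,
      Integrable (fun ω => Real.exp (-(a / √(l N) * L N ω))) P ∧
      ∫ ω, Real.exp (-(a / √(l N) * L N ω)) ∂P ≤ Real.exp (a / √(l N) * (a / √(l N) + 1) / 2 * l N + ε))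
    (hp : ∀ a : ℝ, 0 < a → ∀ ε : ℝ, 0 < ε → ∀ᶠ N in atTop,
      Integrable (fun ω => Real.exp (a / √(l N) * L N ω)) P ∧
      ∫ ω, Real.exp (a / √(l N) * L N ω) ∂P ≤ Real.exp (-(a / √(l N) * (1 - a / √(l N)) / 2 * l N) + ε))
    (hlow : ∃ a : ℝ, 0 < a ∧ ∀ ε : ℝ, 0 < ε → ∀ᶠ N in atTop,
      Real.exp (a / √(l N) * (a / √(l N) + 1) / 2 * l N - ε) ≤ ∫ ω, Real.exp (-(a / √(l N) * L N ω)) ∂P) :
    Tendsto (fun N => (∫ ω, L N ω ∂P) / l N) atTop (𝓝 (-1 / 2)) ∧
      ∃ c C : ℝ, 0 < c ∧ 0 < C ∧ ∀ᶠ N in atTop, c * l N ≤ variance (L N) P ∧ variance (L N) P ≤ C * l N := by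
  set X : ℕ → Ω → ℝ := fun N ω => (L N ω + l N / 2) / √(l N) with hXdef
  have hlpos : ∀ᶠ N in atTop, 0 < l N := hl.eventually_gt_atTop 0
  have hXm : ∀ᶠ N in atTop, AEStronglyMeasurable (X N) P := by
    filter_upwards [hL] with N hN
    have : AEStronglyMeasurable (fun ω => (√(l N))⁻¹ * (L N ω + l N / 2)) P :=
      (hN.add aestronglyMeasurable_const).const_mul _
    refine this.congr (Eventually.of_forall fun ω => ?_)
    show (√(l N))⁻¹ * (L N ω + l N / 2) = (L N ω + l N / 2) / √(l N)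
    exact (div_eq_inv_mul _ _).symm
  -- the two transforms
  have e1 : ∀ N, 0 < l N → ∀ a : ℝ, ∀ ω, Real.exp (-(a * X N ω)) =
      Real.exp (-(a * √(l N) / 2)) * Real.exp (-(a / √(l N) * L N ω)) := by
    intro N hN a ω
    rw [← Real.exp_add]
    congr 1
    have h1 : √(l N) * √(l N) = l N := Real.mul_self_sqrt hN.le
    have h2 : 0 < √(l N) := Real.sqrt_pos.2 hN
    have h3 : a * √(l N) / 2 = a / √(l N) * (l N / 2) := by
      rw [div_mul_eq_mul_div, eq_div_iff h2.ne']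
      calc a * √(l N) / 2 * √(l N) = a * (√(l N) * √(l N)) / 2 := by ring
        _ = a * (l N / 2) := by rw [h1]; ring
    rw [h3]
    simp only [hXdef]
    ring
  have e2 : ∀ N, 0 < l N → ∀ a : ℝ, ∀ ω, Real.exp (a * X N ω) =
      Real.exp (a * √(l N) / 2) * Real.exp (a / √(l N) * L N ω) := by
    intro N hN a ω
    have := e1 N hN (-a) ω
    simp only [neg_mul, neg_neg, neg_div] at this
    exact this
  have e3 : ∀ N, 0 < l N → ∀ a ε : ℝ, Real.exp (-(a * √(l N) / 2)) *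
      Real.exp (a / √(l N) * (a / √(l N) + 1) / 2 * l N + ε) = Real.exp (a ^ 2 / 2 + ε) := by
    intro N hN a ε
    rw [← Real.exp_add]
    congr 1
    have h1 : √(l N) * √(l N) = l N := Real.mul_self_sqrt hN.le
    have h2 : 0 < √(l N) := Real.sqrt_pos.2 hN
    have h3 : a / √(l N) * (a / √(l N) + 1) / 2 * l N = a ^ 2 / 2 + a * √(l N) / 2 := by
      have h4 : a / √(l N) * l N = a * √(l N) := by
        rw [div_mul_eq_mul_div, div_eq_iff h2.ne']
        calc a * l N = a * (√(l N) * √(l N)) := by rw [h1]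
          _ = _ := by ring
      calc a / √(l N) * (a / √(l N) + 1) / 2 * l N = (a / √(l N) * l N) * (a / √(l N) + 1) / 2 := by ring
        _ = a * √(l N) * (a / √(l N) + 1) / 2 := by rw [h4]
        _ = _ := by field_simp
    rw [h3]
    ring
  have e4 : ∀ N, 0 < l N → ∀ a ε : ℝ, Real.exp (a * √(l N) / 2) *
      Real.exp (-(a / √(l N) * (1 - a / √(l N)) / 2 * l N) + ε) = Real.exp (a ^ 2 / 2 + ε) := by
    intro N hN a ε
    have := e3 N hN (-a) ε
    rw [show a ^ 2 / 2 + ε = (-a) ^ 2 / 2 + ε by ring, ← this]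
    congr 1
    · congr 1; ring
    · congr 1; ring
  have hE : ∀ a : ℝ, 0 < a → ∀ ε : ℝ, 0 < ε → ∀ᶠ N in atTop, ExpMom P (X N) a (Real.exp (a ^ 2 / 2 + ε)) := by
    intro a ha ε hε
    filter_upwards [hm a ha ε hε, hp a ha ε hε, hlpos] with N h1 h2 h3
    refine ⟨?_, ?_, ?_, ?_⟩
    · simp only [e2 N h3 a]; exact h2.1.const_mul _
    · simp only [e1 N h3 a]; exact h1.1.const_mul _
    · simp only [e2 N h3 a]
      rw [integral_const_mul, ← e4 N h3 a ε]
      exact mul_le_mul_of_nonneg_left h2.2 (Real.exp_pos _).le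
    · simp only [e1 N h3 a]
      rw [integral_const_mul, ← e3 N h3 a ε]
      exact mul_le_mul_of_nonneg_left h1.2 (Real.exp_pos _).le
  have hlow' : ∃ a : ℝ, 0 < a ∧ ∀ ε : ℝ, 0 < ε → ∀ᶠ N in atTop,
      Real.exp (a ^ 2 / 2 - ε) ≤ ∫ ω, Real.exp (-(a * X N ω)) ∂P := by
    obtain ⟨a, ha, h⟩ := hlow
    refine ⟨a, ha, fun ε hε => ?_⟩
    filter_upwards [h ε hε, hlpos] with N h1 h3
    simp only [e1 N h3 a]
    rw [integral_const_mul, sub_eq_add_neg, ← e3 N h3 a (-ε)]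
    exact mul_le_mul_of_nonneg_left h1 (Real.exp_pos _).le
  obtain ⟨g1, c, C, hc, hC, g2⟩ := norm_mean_var hXm hE hlow'
  have hLX : ∀ N, 0 < l N → L N = fun ω => √(l N) * X N ω - l N / 2 := by
    intro N hN
    funext ω
    have h2 : 0 < √(l N) := Real.sqrt_pos.2 hN
    simp only [hXdef]
    field_simp
    ring
  refine ⟨?_, c, C, hc, hC, ?_⟩
  · have h1 : Tendsto (fun N => (∫ ω, X N ω ∂P) * (√(l N))⁻¹ - 1 / 2) atTop (𝓝 (0 * 0 - 1 / 2)) := by
      refine (g1.mul ?_).sub_const _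
      exact tendsto_inv_atTop_zero.comp (Real.tendsto_sqrt_atTop.comp hl)
    have e : (0 * 0 - 1 / 2 : ℝ) = -1 / 2 := by norm_num
    rw [e] at h1
    refine h1.congr' ?_
    filter_upwards [hlpos, g2] with N h2 h3
    have h4 : Integrable (X N) P := h3.1.integrable (by norm_num)
    have h5 : ∫ ω, L N ω ∂P = √(l N) * (∫ ω, X N ω ∂P) - l N / 2 := by
      rw [hLX N h2]
      rw [integral_sub (h4.const_mul _) (integrable_const _), integral_const_mul]
      simp
    have h6 : 0 < √(l N) := Real.sqrt_pos.2 h2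
    have h7 : √(l N) * √(l N) = l N := Real.mul_self_sqrt h2.le
    rw [h5, sub_div]
    congr 1
    · rw [eq_div_iff h2.ne']
      nth_rewrite 2 [← h7]
      field_simp
    · field_simp
  · filter_upwards [hlpos, g2, hXm] with N h2 h3 h4
    have h5 : variance (L N) P = l N * variance (X N) P := by
      rw [hLX N h2]
      have h6 : variance (fun ω => √(l N) * X N ω - l N / 2) P = variance (fun ω => √(l N) * X N ω) P :=
        variance_sub_const (h4.const_mul _) _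
      rw [h6, variance_const_mul, Real.sq_sqrt h2.le]
    rw [h5]
    constructor
    · nlinarith [h3.2.1]
    · nlinarith [h3.2.2]

end Pool.Agent.Polymer
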